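import Mathlib
import Pool.Agent.H31.MaxDet
import Pool.Agent.H31.Spec

set_option autoImplicit false
open Matrix Finset Pool.Agent.H31.Mag SimpleGraph

namespace Pool.Agent.Results.MP_8e2f96_co.Bound

variable {n : ℕ} (G : SimpleGraph (Fin n)) [DecidableRel G.Adj]

/-- The smallest nonzero Laplacian eigenvalue (the spectral gap of a connected graph). -/
noncomputable def lam2 : ℝ := sInf (spectrum ℝ (G.lapMatrix ℝ) \ {0})

theorem gap (hG : G.Connected) (f : Fin n → ℝ) : ∃ m, lam2 G * ∑ i, (f i - m) ^ 2 ≤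
    (∑ i, ∑ j, if G.Adj i j then (f i - f j) ^ 2 else 0) / 2 := by
  have n0 : (0 : ℝ) < n := by exact_mod_cast Fin.pos_iff_nonempty.mpr hG.nonempty
  let N := G.lapMatrix ℝ + (of fun _ _ => lam2 G / n) - lam2 G • (1 : Matrix (Fin n) (Fin n) ℝ)
  have hN : N.IsHermitian := ((G.isHermitian_lapMatrix ℝ).add (IsHermitian.ext fun _ _ => rfl)).sub
    (isHermitian_one.smul (IsSelfAdjoint.all _))
  have e : ∀ y, N *ᵥ y = G.lapMatrix ℝ *ᵥ y + (fun _ => lam2 G / n * ∑ i, y i) - lam2 G • y := by
    intro y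
    simp only [N, sub_mulVec, add_mulVec, smul_mulVec, one_mulVec]
    congr 2
    funext i
    simp [mulVec, dotProduct, mul_sum]
  have p : N.PosSemidef := hN.posSemidef_iff_eigenvalues_nonneg.mpr fun i => by
    obtain ⟨y, y0, h⟩ := H31.Spec.eigvec (hN.eigenvalues_mem_spectrum_real i)
    rw [e] at h
    by_cases c : ∑ i, y i = 0
    · have h2 : G.lapMatrix ℝ *ᵥ y = (hN.eigenvalues i + lam2 G) • y := by
        rw [add_smul, ← h, c]; funext; simp
      have := csInf_le (s := spectrum ℝ (G.lapMatrix ℝ) \ {0})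
        (finite_real_spectrum.subset Set.sdiff_subset).bddBelow
        ⟨H31.Spec.mem_spec y y0 h2, fun z : _ + _ = (0 : ℝ) => y0 (funext fun j => by
          rw [z, zero_smul, lapMatrix_mulVec_eq_zero_iff_forall_reachable] at h2
          rw [sum_congr rfl fun k _ => h2 k j (hG.preconnected k j)] at c
          simpa [n0.ne', show n ≠ 0 by exact_mod_cast n0.ne'] using c)⟩
      exact (le_add_iff_nonneg_left (lam2 G)).mp this
    · have h1 : (fun _ => (1 : ℝ)) ⬝ᵥ G.lapMatrix ℝ *ᵥ y = 0 := by
        rw [dotProduct_mulVec, ← mulVec_transpose, (G.isSymm_lapMatrix (R := ℝ)).eq,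
          lapMatrix_mulVec_const_eq_zero, zero_dotProduct]
      have := congrArg ((fun _ => (1 : ℝ)) ⬝ᵥ ·) h
      simp only [dotProduct_sub, dotProduct_add, h1] at this
      simp [dotProduct, ← mul_sum, ← mul_assoc, mul_div_cancel₀ _ n0.ne', c] at this
      exact this.ge
  have := p.dotProduct_mulVec_nonneg fun i => f i - (∑ i, f i) / n
  rw [e, star_trivial, dotProduct_sub, dotProduct_add, ← toLinearMap₂'_apply', lapMatrix_toLinearMap₂',
    show ∑ i, (f i - (∑ i, f i) / n) = 0 by simp [mul_div_cancel₀ _ n0.ne']] at this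
  refine ⟨(∑ i, f i) / n, ?_⟩
  simp only [dotProduct, mul_zero, sum_const_zero, add_zero, Pi.smul_apply, smul_eq_mul,
    sub_sub_sub_cancel_right, mul_left_comm _ (lam2 G), ← mul_sum, ← sq] at this
  linarith

theorem supp (hG : G.Connected) (f : Fin n → ℝ) (T : Finset (Fin n)) (D : ℝ)
    (h0 : ∀ i ∉ T, f i = 0) (h1 : ∀ i ∈ T, ∀ j, G.Adj i j → (f i - f j) ^ 2 ≤ 1)
    (h2 : ∀ m, D ≤ ∑ i, (f i - m) ^ 2) : lam2 G * D ≤ ∑ i ∈ T, G.degree i := by
  obtain ⟨m, h⟩ := gap G hG f
  have l0 : 0 ≤ lam2 G := Real.sInf_nonneg fun x hx => by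
    have := (posSemidef_lapMatrix ℝ G)
    rw [posSemidef_iff_isHermitian_and_spectrum_nonneg] at this
    exact this.2 hx.1
  refine (mul_le_mul_of_nonneg_left (h2 m) l0).trans (h.trans ?_)
  have e : (∑ i ∈ T, G.degree i : ℕ) = ∑ i, ∑ j, if G.Adj i j ∧ i ∈ T then (1 : ℝ) else 0 := by
    push_cast
    rw [← sum_subset (subset_univ T) fun i _ hi => by simp [hi]]
    exact sum_congr rfl fun i hi => by simp [hi, G.degree_eq_sum_if_adj (R := ℝ)]
  rw [div_le_iff₀ two_pos, mul_two, e]
  nth_rw 2 [sum_comm]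
  simp only [← sum_add_distrib]
  refine sum_le_sum fun i _ => sum_le_sum fun j _ => ?_
  by_cases a : G.Adj i j
  · by_cases b : i ∈ T <;> by_cases c : j ∈ T <;> simp only [a, a.symm, b, c, if_true, and_true,
      and_false, if_false]
    · linarith [h1 i b j a]
    · linarith [h1 i b j a]
    · linarith [h1 j c i a.symm]
    · simp [h0, b, c]
  · simp [a, mt G.adj_symm a]

theorem viaX (hn : 0 < n) (h : ∀ v, 2 ≤ G.degree v) (x : ℕ → Fin n → Fin n → ℝ) (X : ℝ)
    (h1 : ∀ k u v, 1 ≤ x k u v) (h2 : ∀ k ≤ n, ∀ u v, x k u v ≤ X)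
    (h3 : ∀ k v p, G.Adj v p → (G.degree v = 2 ∧ ∀ u ≠ p, G.Adj v u → x k u v + 2 ≤ x (k + 1) v p) ∨
      (3 ≤ G.degree v ∧ 2 * (1 + X) ≤ 3 * x (k + 1) v p)) : 1 / (X + 2) ^ 2 ≤ nu G := by
  have X1 : 1 ≤ X := (h1 0 ⟨0, hn⟩ ⟨0, hn⟩).trans (h2 0 (by omega) _ _)
  have q : ∀ k u v, 1 / (1 + 1 / x k u v) = 1 - 1 / (1 + x k u v) := fun k u v => by
    have := h1 k u v; field_simp; ring
  have q2 : ∀ k < Fintype.card (Fin n), ∀ u v, 1 / (1 + 1 / x k u v) ≤ 1 - 1 / (1 + X) :=
    fun k hk u v => by
      have := h1 k u v; have := h2 k (by simp at hk; omega) u v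
      rw [q]; gcongr
  have c1 : 1 / (X + 2) ^ 2 ≤ 1 / (1 + X) / 2 := by
    rw [div_div]; gcongr; nlinarith
  have c2 : 0 < 1 / (1 + X) := by positivity
  refine (maxdet G _ (fun k u v => 1 + 1 / x k u v) (fun k u v => by have := h1 k u v; positivity)
    (fun k hk v p a => ?_) fun k hk v => ?_).resolve_right (fun e => e.false ⟨0, hn⟩)
  · have d : ((G.neighborFinset v).erase p).card = G.degree v - 1 := by
      simp [card_erase_of_mem, a]
    rcases h3 k v p a with ⟨b, c⟩ | ⟨b, c⟩
    · obtain ⟨u, hu⟩ := card_eq_one.mp (d.trans (by omega))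
      have hu2 := hu ▸ mem_singleton_self u
      simp only [mem_erase, mem_neighborFinset] at hu2
      have c3 := c u hu2.1 hu2.2
      have c4 := h1 k u v
      have c5 := h2 k (by simp at hk; omega) u v
      have c6 : 1 / x (k + 1) v p ≤ 1 / (x k u v + 2) := by gcongr
      have c7 : 1 / (X + 2) ^ 2 ≤ 1 / (1 + x k u v) - 1 / (x k u v + 2) := by
        rw [div_sub_div _ _ (by positivity) (by positivity), show 1 * (x k u v + 2) -
          (1 + x k u v) * 1 = 1 by ring]
        gcongr; nlinarith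
      rw [hu, sum_singleton, q, b]
      push_cast
      linarith
    · have s := sum_le_card_nsmul ((G.neighborFinset v).erase p) _ _ fun u _ => q2 k hk u v
      have : (3 : ℝ) ≤ G.degree v := by exact_mod_cast b
      have c6 : 1 / x (k + 1) v p ≤ 3 / 2 * (1 / (1 + X)) := by
        have := h1 (k + 1) v p
        rw [div_mul_div_comm, div_le_div_iff₀ (by positivity) (by positivity)]; linarith
      rw [d, nsmul_eq_mul, Nat.cast_pred (by omega)] at s
      nlinarith
  · have s := sum_le_card_nsmul (G.neighborFinset v) _ _ fun u _ => q2 k hk u v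
    have : (2 : ℝ) ≤ G.degree v := by exact_mod_cast h v
    rw [card_neighborFinset_eq_degree, nsmul_eq_mul] at s
    nlinarith

theorem layers (hG : G.Connected) (B : Finset (Fin n)) (hB : B.Nonempty) : ∃ r : Fin n → ℕ,
    (∀ v, r v = 0 ↔ v ∈ B) ∧ (∀ u v, G.Adj u v → r u ≤ r v + 1) ∧
    ∀ v k, r v = k + 1 → ∃ u, G.Adj v u ∧ r u = k := by
  choose β b1 b2 using fun v => exists_min_image B (G.dist v) hB
  have a : ∀ u v, G.Adj u v → G.dist u (β u) ≤ G.dist v (β v) + 1 := fun u v h => by
    have := hG.dist_triangle (u := u) (v := v) (w := β v)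
    rw [dist_eq_one_iff_adj.mpr h] at this
    have := b2 u _ (b1 v)
    omega
  refine ⟨fun v => G.dist v (β v), fun v => ⟨fun h => hG.dist_eq_zero_iff.mp h ▸ b1 v, fun h => by
    simpa using b2 v v h⟩, a, fun v k h => ?_⟩
  have t : ∀ v b, G.dist v b = k + 1 → ∃ u, G.Adj v u ∧ G.dist u b ≤ k := fun v b h => by
    obtain ⟨p, hp⟩ := hG.exists_walk_length_eq_dist v b
    cases p with
    | nil => simp at h
    | cons e q => exact ⟨_, e, by have := dist_le q; simp at hp; omega⟩
  obtain ⟨u, e, f⟩ := t v _ h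
  have := a v u e
  have := b2 u _ (b1 v)
  exact ⟨u, e, by simp only at h ⊢; omega⟩

theorem main (hG : G.Connected) (h : ∀ v, 2 ≤ G.degree v) : lam2 G ≤ 10 ^ 6 * nu G := by
  have hn := Fin.pos_iff_nonempty.mpr hG.nonempty
  have A : ∀ v, lam2 G ≤ 2 * G.degree v := fun v => by
    obtain ⟨w, hw⟩ := (G.degree_pos_iff_exists_adj v).mp (by have := h v; omega)
    have := supp G hG (Pi.single v 1) {v} (1 / 2) (fun i hi => by simp at hi; simp [hi])
      (fun i hi j a => by simp at hi; subst hi; simp [a.ne']) fun m =>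
        le_trans (by rw [sum_pair hw.ne]; simp [hw.ne']; nlinarith [sq_nonneg (2 * m - 1)])
          (sum_le_sum_of_subset_of_nonneg (subset_univ {v, w}) fun _ _ _ => sq_nonneg _)
    simp at this; linarith
  obtain ⟨v0, -, hv⟩ := exists_min_image univ (fun v => G.degree v) ⟨⟨0, hn⟩, mem_univ _⟩
  by_cases c : 3 ≤ G.degree v0
  · have := hG.nonempty
    have a := mindeg G _ c fun v => hv v (mem_univ _)
    have b := A v0
    have d : (3 : ℝ) ≤ G.degree v0 := by exact_mod_cast c
    have e : √((G.degree v0 : ℝ) - 1) ≤ 19 / 40 * G.degree v0 :=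
      Real.sqrt_le_iff.mpr ⟨by positivity, by nlinarith⟩
    linarith
  have A0 : lam2 G ≤ 4 := by
    have := A v0; rw [show G.degree v0 = 2 by have := h v0; omega] at this; norm_num at this ⊢; linarith
  obtain ⟨B, hB, b1, b2⟩ : ∃ B : Finset (Fin n), B.Nonempty ∧ (∀ v ∉ B, G.degree v = 2) ∧
      ((∀ v ∈ B, 3 ≤ G.degree v) ∨ (B = {v0} ∧ ∀ v, G.degree v = 2)) := by
    by_cases e : ∃ v, 3 ≤ G.degree v
    · exact ⟨univ.filter fun v => 3 ≤ G.degree v, e.imp (by simp), fun v hv => by
        have := h v; simp at hv; omega, Or.inl (by simp)⟩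
    · have : ∀ v, G.degree v = 2 := fun v => by
        have := h v; have := not_exists.mp e v; omega
      exact ⟨{v0}, by simp, fun v _ => this v, Or.inr ⟨rfl, this⟩⟩
  obtain ⟨r, r1, r2, r3⟩ := layers G hG B hB
  obtain ⟨z, -, hz⟩ := exists_max_image univ r ⟨v0, mem_univ _⟩
  obtain ⟨l, hl⟩ : ∃ l, r z = l := ⟨_, rfl⟩
  simp only [mem_univ, hl, true_imp_iff] at hz
  have two : ∀ v a b c, r v ≠ 0 → G.Adj v a → G.Adj v b → G.Adj v c → a ≠ b → c = a ∨ c = b :=
    fun v a b c e i j k ne => by
      have : ({a, b} : Finset _) = G.neighborFinset v := eq_of_subset_of_card_le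
        (by simp [insert_subset_iff, i, j]) (by simp [b1 v (mt (r1 v).mpr e), card_pair ne])
      simpa [← this] using (G.mem_neighborFinset v c).mpr k
  have U : lam2 G * (l + 1) ^ 2 ≤ 2048 := by
    have l0 : (0 : ℝ) ≤ l := by positivity
    by_cases e : l < 4
    · have : (l : ℝ) ≤ 3 := by exact_mod_cast (by omega : l ≤ 3)
      nlinarith [mul_le_mul_of_nonneg_right A0 (sq_nonneg ((l : ℝ) + 1))]
    obtain ⟨w, w1, w2⟩ : ∃ w : ℕ → Fin n, (∀ i ≤ l, r (w i) = i) ∧
        ∀ i < l, G.Adj (w (i + 1)) (w i) := by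
      have : ∀ v : Fin n, ∃ u, ∀ k, r v = k + 1 → G.Adj v u ∧ r u = k := fun v => by
        rcases hk : r v with _ | k
        · exact ⟨v, by simp⟩
        · exact (r3 v k hk).imp fun u hu j hj => by rwa [← Nat.succ_injective hj]
      choose π hπ using this
      have a : ∀ i ≤ l, r (π^[i] z) = l - i := fun i hi => by
        induction i with
        | zero => simpa using hl
        | succ i ih => rw [Function.iterate_succ_apply']; exact (hπ _ _ (by rw [ih (by omega)]; omega)).2
      refine ⟨fun i => π^[l - i] z, fun i hi => by rw [a _ (by omega)]; omega, fun i hi => ?_⟩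
      simp only
      rw [show l - i = l - (i + 1) + 1 by omega, Function.iterate_succ_apply']
      exact (hπ _ i (by rw [a _ (by omega)]; omega)).1
    obtain ⟨q, q1, q2, q3⟩ : ∃ q, 4 * q ≤ l ∧ l + 1 ≤ 8 * q ∧ 0 < q := ⟨l / 4, by omega⟩
    let f : Fin n → ℝ := fun x => if x ∈ (range (l + 1)).image w then min (r x) (l - r x) else 0
    have f1 : ∀ i ≤ l, f (w i) = min (i : ℝ) (l - i) := fun i hi => by
      simp only [f]
      rw [if_pos (mem_image_of_mem _ (mem_range.mpr (by omega))), w1 i hi]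
    have := supp G hG f ((Ioo 0 l).image w) (q ^ 3 / 2) (fun x hx => by
      simp only [f]
      split_ifs with a
      · obtain ⟨i, hi, rfl⟩ := mem_image.mp a
        have : i = 0 ∨ i = l := by
          by_contra k
          exact hx (mem_image_of_mem _ (by simp at hi ⊢; omega))
        rw [w1 i (by simp at hi; omega)]
        rcases this with rfl | rfl <;> simp
      · rfl) (fun x hx y a => by
        obtain ⟨i, hi, rfl⟩ := mem_image.mp hx
        rw [mem_Ioo] at hi
        obtain ⟨i, rfl⟩ : ∃ j, i = j + 1 := ⟨i - 1, by omega⟩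
        rw [sq_le_one_iff_abs_le_one, abs_le]
        rcases two _ (w i) (w (i + 2)) y (by rw [w1 _ hi.2.le]; omega) (w2 i (by omega))
          (w2 (i + 1) hi.2).symm a (fun e => by
            have := w1 i (by omega); rw [e, w1 _ hi.2] at this; omega) with rfl | rfl <;>
        · rw [f1 _ (by omega), f1 _ (by omega)]
          simp only [min_def]
          push_cast
          split_ifs <;> constructor <;> linarith) fun m => by
      refine le_trans ?_ (sum_le_sum_of_subset_of_nonneg (subset_univ ((range (q + q)).image w))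
        fun _ _ _ => sq_nonneg _)
      rw [sum_image fun i hi j hj e => by
        simp at hi hj; rw [← w1 i (by omega), e, w1 j (by omega)], sum_range_add, ← sum_add_distrib]
      refine le_trans (le_of_eq (by simp; ring)) (card_nsmul_le_sum _ _ ((q : ℝ) ^ 2 / 2) fun i hi => ?_)
      have a : (i : ℝ) < q := by exact_mod_cast mem_range.mp hi
      have b : 4 * (q : ℝ) ≤ l := by exact_mod_cast q1
      rw [mem_range] at hi
      rw [f1 _ (by omega), f1 _ (by omega), min_eq_left (by linarith), min_eq_left (by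
        push_cast; linarith)]
      push_cast
      nlinarith [sq_nonneg (2 * (i : ℝ) + q - 2 * m)]
    have s : ∑ i ∈ (Ioo 0 l).image w, G.degree i ≤ 2 * (8 * q) := by
      refine (sum_le_card_nsmul _ _ 2 fun x hx => ?_).trans ?_
      · obtain ⟨i, hi, rfl⟩ := mem_image.mp hx
        rw [mem_Ioo] at hi
        exact (b1 _ (mt (r1 _).mpr (by rw [w1 _ hi.2.le]; omega))).le
      · have := card_image_le (s := Ioo 0 l) (f := w)
        simp at this ⊢; omega
    have s2 : lam2 G * (q ^ 3 / 2) ≤ 2 * (8 * q) := this.trans (by exact_mod_cast s)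
    have q4 : (0 : ℝ) < q := by positivity
    have q5 : (l + 1 : ℝ) ≤ 8 * q := by exact_mod_cast q2
    have s3 : lam2 G * q ^ 2 ≤ 32 := le_of_mul_le_mul_right (by linarith) q4
    by_cases s4 : 0 ≤ lam2 G
    · nlinarith [mul_le_mul_of_nonneg_left (pow_le_pow_left₀ (by positivity) q5 2) s4]
    · nlinarith [sq_nonneg ((l : ℝ) + 1)]
  have L : 1 / (22 * (l + 1 : ℝ)) ^ 2 ≤ nu G := by
    have l0 : (0 : ℝ) ≤ l := by positivity
    rcases b2 with b2 | ⟨rfl, b2⟩
    · let g : Fin n → Fin n → ℕ := fun v p =>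
        if r v < r p then r v else if r p = r v then l + 1 else 2 * l + 3 - r v
      refine le_trans (by gcongr; linarith) (viaX G hn h (fun _ v p => (8 * l + 14 + 2 * g v p : ℕ))
        (12 * l + 20) (fun _ _ _ => by norm_cast; omega) (fun _ _ u v => by
          have := hz u; norm_cast; simp only [g]; split_ifs <;> omega) fun k v p a => ?_)
      by_cases c : r v = 0
      · exact Or.inr ⟨b2 v ((r1 v).mp c), by norm_cast; omega⟩
      refine Or.inl ⟨b1 v (mt (r1 v).mpr c), fun u ne b => ?_⟩
      obtain ⟨y, y1, y2⟩ := r3 v (r v - 1) (by omega)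
      have := hz u; have := hz v; have := r2 u v b.symm; have := r2 v u b
      norm_cast
      rcases two v u p y c b a y1 ne with rfl | rfl <;> simp only [g] <;> split_ifs <;> omega
    · have S : ∀ k, (univ.filter fun v => r v = k + 1).card ≤ 2 := fun k => by
        induction k with
        | zero => exact (card_le_card fun v hv => by
            obtain ⟨u, a, b⟩ := r3 v 0 (mem_filter.mp hv).2
            rw [mem_singleton.mp ((r1 u).mp b)] at a
            exact (G.mem_neighborFinset _ _).mpr a.symm).trans (b2 v0).le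
        | succ k ih =>
          choose! π p1 p2 using fun v => r3 v (k + 1)
          refine (card_le_card_of_injOn π (fun v hv => by simp at hv; simp [p2 v hv])
            fun u hu v hv e => ?_).trans ih
          simp at hu hv
          by_contra ne
          obtain ⟨y, y1, y2⟩ := r3 (π u) k (p2 u hu)
          rcases two (π u) u v y (by rw [p2 u hu]; omega) (p1 u hu).symm (e ▸ (p1 v hv).symm) y1 ne
            with rfl | rfl <;> omega
      have N : n ≤ 2 * (l + 1) := by
        have := card_eq_sum_card_fiberwise (f := r) (s := univ) (t := range (l + 1))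
          fun v _ => by simpa [Nat.lt_succ_iff] using hz v
        rw [card_fin] at this
        rw [this]
        refine (sum_le_card_nsmul _ _ 2 fun k _ => ?_).trans (by simp; omega)
        rcases k with _ | k
        · exact (card_le_card (t := {v0}) fun v hv => (r1 v).mp (mem_filter.mp hv).2).trans (by simp)
        · exact S k
      refine le_trans (by gcongr; linarith) (viaX G hn h (fun k _ _ => (2 * k + 1 : ℕ))
        (4 * l + 5) (fun _ _ _ => by norm_cast; omega) (fun _ _ u v => by norm_cast; omega)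
        fun k v p a => Or.inl ⟨b2 v, fun _ _ _ => by norm_cast⟩)
  rw [div_le_iff₀ (by positivity)] at L
  refine le_of_mul_le_mul_right ?_ (show (0 : ℝ) < (l + 1) ^ 2 by positivity)
  nlinarith

theorem result : ∃ c : ℝ, 0 < c ∧ ∀ (d n : ℕ) (G : SimpleGraph (Fin n)) [DecidableRel G.Adj],
    2 ≤ d → G.Connected → (∀ v, d ≤ G.degree v) → lam2 G ≤ c * nu G :=
  ⟨_, by positivity, fun _ _ G _ a b c => main G b fun v => a.trans (c v)⟩

end Pool.Agent.Results.MP_8e2f96_co.Bound
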